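import Pool.Agent.Lib.MP_182bbb_co.TT.Iface

/-!
# MP_182bbb_co, module PEEL: cores and peeling
-/

open Finset

namespace MP_182bbb_co.TT.H52

open MP_182bbb_co.H5

variable {V : Type*} [DecidableEq V] [Fintype V]

lemma mem_lk {G : Finset (Finset V)} {x y z : V} : z ∈ lk G x y ↔ ({x, y, z} : Finset V) ∈ G := by
  simp [lk]

lemma lk_mono {F G : Finset (Finset V)} (h : F ⊆ G) (x y : V) : lk F x y ⊆ lk G x y := by
  intro z hz
  rw [mem_lk] at hz ⊢
  exact h hz

lemma lk_comm (G : Finset (Finset V)) (x y : V) : lk G x y = lk G y x := by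
  ext z
  rw [mem_lk, mem_lk, swap12]

lemma mem_kcore {t : ℕ} {G : Finset (Finset V)} {e : Finset V} :
    e ∈ kcore t G ↔ ∃ F ⊆ G, IsCore t F ∧ e ∈ F := by
  classical
  unfold kcore
  rw [Finset.mem_sup]
  simp only [mem_filter, mem_powerset, id]
  constructor
  · rintro ⟨F, ⟨h1, h2⟩, h3⟩
    exact ⟨F, h1, h2, h3⟩
  · rintro ⟨F, h1, h2, h3⟩
    exact ⟨F, ⟨h1, h2⟩, h3⟩

lemma kcore_subset (t : ℕ) (G : Finset (Finset V)) : kcore t G ⊆ G := by
  intro e he
  obtain ⟨F, h1, _, h3⟩ := mem_kcore.1 he
  exact h1 h3

lemma subset_kcore {t : ℕ} {F G : Finset (Finset V)} (h1 : F ⊆ G) (h2 : IsCore t F) :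
    F ⊆ kcore t G := fun _ he => mem_kcore.2 ⟨F, h1, h2, he⟩

lemma isCore_kcore (t : ℕ) (G : Finset (Finset V)) : IsCore t (kcore t G) := by
  rintro x y ⟨z, hz⟩
  rw [mem_lk] at hz
  obtain ⟨F, h1, h2, h3⟩ := mem_kcore.1 hz
  refine (h2 x y ⟨z, mem_lk.2 h3⟩).trans (card_le_card (lk_mono (subset_kcore h1 h2) x y))

lemma kcore_eq_of {t : ℕ} {F G : Finset (Finset V)} (h1 : F ⊆ G) (h2 : kcore t G ⊆ F) :
    kcore t F = kcore t G := by
  apply Subset.antisymm
  · exact subset_kcore ((kcore_subset t F).trans h1) (isCore_kcore t F)
  · exact subset_kcore h2 (isCore_kcore t G)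

lemma kcore_anti {s t : ℕ} (h : s ≤ t) (G : Finset (Finset V)) : kcore t G ⊆ kcore s G :=
  subset_kcore (kcore_subset t G) fun x y hxy => h.trans (isCore_kcore t G x y hxy)

/-- deleting the triples on a pair of small nonzero codegree -/
lemma peel_step {F : Finset (Finset V)} (hF : IsUniform 3 F) (t : ℕ) :
    2 * F.card + t * cnt2 (fun x y : V => (lk (kcore (t + 1) F) x y).Nonempty) ≤
      t * cnt2 (fun x y : V => (lk F x y).Nonempty) + 2 * (kcore (t + 1) F).card := by
  classical
  induction hn : F.card using Nat.strong_induction_on generalizing F with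
  | _ n ih =>
    by_cases hc : IsCore (t + 1) F
    · have h1 : kcore (t + 1) F = F :=
        Subset.antisymm (kcore_subset _ _) (subset_kcore Subset.rfl hc)
      rw [h1, hn]
      omega
    · unfold IsCore at hc
      push Not at hc
      obtain ⟨x, y, hne, hlt⟩ := hc
      set F' := F.filter (fun e => ¬ ({x, y} : Finset V) ⊆ e) with hF'
      have hsub : F' ⊆ F := filter_subset _ _
      obtain ⟨z0, hz0⟩ := hne
      have hxy : x ≠ y := (ne_of_card_three (hF _ (mem_lk.1 hz0))).1
      have hcard : F'.card + (lk F x y).card = F.card := by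
        rw [card_lk hF hxy, cod, hF', add_comm]
        exact card_filter_add_card_filter_not _
      have hpos : 0 < (lk F x y).card := card_pos.2 ⟨z0, hz0⟩
      have hkc : kcore (t + 1) F ⊆ F' := by
        intro e he
        rw [hF', mem_filter]
        refine ⟨kcore_subset _ _ he, fun hcon => ?_⟩
        obtain ⟨w, _, _, hw⟩ := exists_third (hF e (kcore_subset _ _ he)) hxy
          (hcon (by simp)) (hcon (by simp))
        have h2 := isCore_kcore (t + 1) F x y ⟨w, by rw [mem_lk, ← hw]; exact he⟩
        have h3 := card_le_card (lk_mono (kcore_subset (t + 1) F) x y)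
        omega
      have hke : kcore (t + 1) F' = kcore (t + 1) F := kcore_eq_of hsub hkc
      have hi := ih F'.card (by omega) (F := F') (fun e he => hF e (hsub he)) rfl
      rw [hke] at hi
      have hc2 : cnt2 (fun x y : V => (lk F' x y).Nonempty) + 2 ≤
          cnt2 (fun x y : V => (lk F x y).Nonempty) := by
        unfold cnt2
        have h4 : (univ.filter (fun p : V × V => (lk F' p.1 p.2).Nonempty)) ∪ {(x, y), (y, x)} ⊆
            univ.filter (fun p : V × V => (lk F p.1 p.2).Nonempty) := by
          intro p hp
          rw [mem_union] at hp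
          rw [mem_filter]
          refine ⟨mem_univ _, ?_⟩
          rcases hp with hp | hp
          · rw [mem_filter] at hp
            exact hp.2.mono (lk_mono hsub _ _)
          · rw [mem_insert, mem_singleton] at hp
            rcases hp with rfl | rfl
            · exact ⟨z0, hz0⟩
            · exact ⟨z0, by rw [lk_comm]; exact hz0⟩
        have h5 : Disjoint (univ.filter (fun p : V × V => (lk F' p.1 p.2).Nonempty))
            {(x, y), (y, x)} := by
          rw [disjoint_right]
          intro p hp hp2
          rw [mem_filter] at hp2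
          obtain ⟨w, hw⟩ := hp2.2
          rw [mem_lk, hF', mem_filter] at hw
          rw [mem_insert, mem_singleton] at hp
          rcases hp with rfl | rfl
          · exact hw.2 (by
              intro v hv
              simp only [mem_insert, mem_singleton] at hv ⊢
              tauto)
          · exact hw.2 (by
              intro v hv
              simp only [mem_insert, mem_singleton] at hv ⊢
              tauto)
        have h6 : ({(x, y), (y, x)} : Finset (V × V)).card = 2 := by
          rw [card_pair]
          intro h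
          exact hxy (congrArg Prod.fst h)
        have h7 := card_le_card h4
        rw [card_union_of_disjoint h5, h6] at h7
        convert h7
      have h8 : t * (cnt2 (fun x y : V => (lk F' x y).Nonempty) + 2) ≤
          t * cnt2 (fun x y : V => (lk F x y).Nonempty) := Nat.mul_le_mul_left _ hc2
      rw [Nat.mul_add] at h8
      omega

theorem peel : PEEL_S := by
  intro V _ _ G hG
  refine ⟨fun t => ⟨kcore_subset t G, isCore_kcore t G⟩, fun t F h1 h2 => subset_kcore h1 h2,
    fun M => ?_, fun t => ?_⟩
  · have h1 : kcore 1 G = G := Subset.antisymm (kcore_subset _ _)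
      (subset_kcore Subset.rfl fun x y h => card_pos.2 h)
    have key : ∀ M, 2 * G.card + M * cnt2 (fun x y : V => sh (M + 1) G x y) ≤
        ∑ t ∈ Icc 1 M, cnt2 (fun x y : V => sh t G x y) + 2 * (kcore (M + 1) G).card := by
      intro M
      induction M with
      | zero => simp [h1]
      | succ M ih =>
        have h2 := peel_step (F := kcore (M + 1) G) (fun e he => hG e (kcore_subset _ _ he)) (M + 1)
        rw [kcore_eq_of (kcore_subset (M + 1) G) (kcore_anti (by omega) G)] at h2
        rw [sum_Icc_succ_top (by omega)]
        simp only [sh] at ih h2 ⊢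
        generalize cnt2 (fun x y : V => (lk (kcore (M + 1) G) x y).Nonempty) = a at *
        generalize cnt2 (fun x y : V => (lk (kcore (M + 1 + 1) G) x y).Nonempty) = b at *
        have e1 : (M + 1) * a = M * a + a := by ring
        rw [e1] at h2
        omega
    have := key M
    exact (Nat.le_add_right _ _).trans this
  · have := peel_step hG t
    exact (Nat.le_add_right _ _).trans this

end MP_182bbb_co.TT.H52
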