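import Pool.Agent.Lib.MP_182bbb_co.TT.H5.Grb
import Pool.Agent.Lib.MP_182bbb_co.TT.H52.Peel

/-!
# ACC1, ACC3, ACC4: the accidents
-/

open Finset

namespace MP_182bbb_co.TT.H52

open MP_182bbb_co.H5 MP_182bbb_co.TT

lemma ind_of {P : Prop} (h : P) : ind P = 1 := if_pos h

lemma ind_of_not {P : Prop} (h : ¬ P) : ind P = 0 := if_neg h

lemma ind_nonneg (P : Prop) : 0 ≤ ind P := by
  by_cases h : P
  · rw [ind_of h]; norm_num
  · rw [ind_of_not h]

lemma ind_le_one (P : Prop) : ind P ≤ 1 := by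
  by_cases h : P
  · rw [ind_of h]
  · rw [ind_of_not h]; norm_num

section

variable {V : Type} [Fintype V] [DecidableEq V]

/-- the kernel of a list function -/
noncomputable def kerL (Lf : V → V → Finset V) (d : ℕ) (u a c : V) : ℝ :=
  ind ((Lf a c).card ≤ d ∧ u ∈ Lf a c)

lemma kerL_nonneg (Lf : V → V → Finset V) (d : ℕ) (u a c : V) : 0 ≤ kerL Lf d u a c :=
  ind_nonneg _

lemma ker_kerL (Lf : V → V → Finset V) (d : ℕ) : Ker (d : ℝ) (kerL Lf d) := by
  refine ⟨fun u a c => ind_nonneg _, fun a c => ?_⟩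
  by_cases h : (Lf a c).card ≤ d
  · have h1 : ∀ u, kerL Lf d u a c = if u ∈ Lf a c then (1 : ℝ) else 0 := by
      intro u
      by_cases hu : u ∈ Lf a c
      · rw [if_pos hu]
        exact ind_of ⟨h, hu⟩
      · rw [if_neg hu]
        exact ind_of_not (fun h' => hu h'.2)
    rw [sum_congr rfl (fun u _ => h1 u), ← sum_filter, filter_mem_eq_inter, univ_inter, sum_const,
      nsmul_eq_mul, mul_one]
    exact_mod_cast h
  · have h1 : ∀ u, kerL Lf d u a c = 0 := fun u => ind_of_not (fun h' => h h'.1)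
    rw [sum_congr rfl (fun u _ => h1 u), sum_const_zero]
    exact Nat.cast_nonneg _

lemma ini_insertNth (N : ℕ) (J : Finset ℕ) (z : ℕ → V) (v : Fin (N + 2)) (w : Fin (N + 1) → V)
    (a : ℕ) (ha : a ≠ v) : ∃ p : V, ∀ x : V,
      ini N J z (Fin.insertNth (α := fun _ => V) v x w) a = p := by
  by_cases haJ : a ∈ J
  · exact ⟨z a, fun x => by rw [ini, if_pos haJ]⟩
  · by_cases hN : a < N + 2
    · obtain ⟨j, hj⟩ := Fin.exists_succAbove_eq (x := (⟨a, hN⟩ : Fin (N + 2))) (y := v)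
        (by
          intro h
          exact ha (by rw [← h]))
      refine ⟨w j, fun x => ?_⟩
      rw [ini, if_neg haJ, dif_pos hN, ← hj, Fin.insertNth_apply_succAbove]
    · exact ⟨z a, fun x => by rw [ini, if_neg haJ, dif_neg hN]⟩

end

theorem acc1 (hTRF : TRF_S) : ACC1_S := by
  intro V _ _ N b in0 J X A z Ω hT0 e he v hvS hvJ hvE d
  have hdown : ∀ j, in0 j → E0 in0 (bs b j) := fun j hj => hT0.down j (hT0.inN j hj) hj
  have hK := ker_kerL (V := V) (fun x y => lk A x y) d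
  obtain ⟨K', hK', h⟩ := hTRF V A b in0 hdown N 0 (Nat.zero_le _) e he v (Or.inl hvS) (d : ℝ)
    (kerL (fun x y => lk A x y) d) (Nat.cast_nonneg _) hK
  have h1 : ∀ φ0 : ℕ → V, gr A b in0 N (fun φ => ind ((lk A (φ (ends b e).1)
      (φ (ends b e).2)).card ≤ d ∧ φ v ∈ lk A (φ (ends b e).1) (φ (ends b e).2))) φ0 ≤
      K' (φ0 v) (φ0 (ends b (top in0 b e)).1) (φ0 (ends b (top in0 b e)).2) := by
    intro φ0
    have h2 := h (fun _ => 1) (fun _ => zero_le_one) (fun _ _ _ => rfl) φ0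
    simp only [one_mul] at h2
    exact h2
  set f := top in0 b e with hf
  have hvN : v < N + 2 := by
    rcases hvS with hv | ⟨i, hi, hv⟩
    · omega
    · have := hT0.inN i hi
      omega
  have hne1 : (ends b f).1 ≠ v := fun h' => hvE (Or.inl h'.symm)
  have hne2 : (ends b f).2 ≠ v := fun h' => hvE (Or.inr h'.symm)
  calc _ ≤ ∑ ω ∈ Ω, K' (ini N J z ω v) (ini N J z ω (ends b f).1) (ini N J z ω (ends b f).2) :=
        sum_le_sum (fun ω _ => h1 _)
    _ ≤ ∑ ω : Fin (N + 2) → V, K' (ini N J z ω v) (ini N J z ω (ends b f).1)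
          (ini N J z ω (ends b f).2) :=
        sum_le_sum_of_subset_of_nonneg (subset_univ _) (fun ω _ _ => hK'.1 _ _ _)
    _ = ∑ p : V × (Fin (N + 1) → V), (fun ω : Fin (N + 2) → V => K' (ini N J z ω v)
          (ini N J z ω (ends b f).1) (ini N J z ω (ends b f).2))
          (Fin.insertNthEquiv (fun _ => V) (⟨v, hvN⟩ : Fin (N + 2)) p) :=
        ((Fin.insertNthEquiv (fun _ => V) (⟨v, hvN⟩ : Fin (N + 2))).sum_comp _).symm
    _ = ∑ w : Fin (N + 1) → V, ∑ x : V, (fun ω : Fin (N + 2) → V => K' (ini N J z ω v)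
          (ini N J z ω (ends b f).1) (ini N J z ω (ends b f).2))
          (Fin.insertNthEquiv (fun _ => V) (⟨v, hvN⟩ : Fin (N + 2)) (x, w)) := by
        rw [Fintype.sum_prod_type, sum_comm]
    _ ≤ ∑ w : Fin (N + 1) → V, (d : ℝ) := by
        refine sum_le_sum (fun w _ => ?_)
        obtain ⟨p, hp⟩ := ini_insertNth N J z (⟨v, hvN⟩ : Fin (N + 2)) w (ends b f).1 hne1
        obtain ⟨q, hq⟩ := ini_insertNth N J z (⟨v, hvN⟩ : Fin (N + 2)) w (ends b f).2 hne2
        refine le_trans (le_of_eq ?_) (hK'.2 p q)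
        refine sum_congr rfl (fun x _ => ?_)
        show K' (ini N J z (Fin.insertNth (α := fun _ => V) ⟨v, hvN⟩ x w) v)
          (ini N J z (Fin.insertNth (α := fun _ => V) ⟨v, hvN⟩ x w) (ends b f).1)
          (ini N J z (Fin.insertNth (α := fun _ => V) ⟨v, hvN⟩ x w) (ends b f).2) = K' x p q
        rw [hp x, hq x]
        congr 1
        rw [ini, if_neg hvJ, dif_pos hvN, Fin.insertNth_apply_same]
    _ = d * (Fintype.card V : ℝ) ^ (N + 1) := by
        rw [sum_const, nsmul_eq_mul, mul_comm]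
        congr 1
        rw [card_univ, Fintype.card_fun, Fintype.card_fin]
        push_cast
        rfl

lemma S0_succ' {in0 : ℕ → Prop} {i : ℕ} (hi : ¬ in0 i) {v : ℕ} (hv : S0 in0 v) : v ≠ i + 2 := by
  rintro rfl
  exact hi ((S0_succ in0).1 hv)

theorem acc3 (hTRF : TRF_S) : ACC3_S := by
  intro V _ _ A N b in0 hdown Lf d D hD e he i hi hin hb1 hb2 φ0
  have hK := ker_kerL (V := V) Lf d
  obtain ⟨K', hK', h⟩ := hTRF V A b in0 hdown N (i + 1) (by omega) e he (i + 2)
    (Or.inr (by omega)) (d : ℝ) (kerL Lf d) (Nat.cast_nonneg _) hK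
  have hp := p_le b i
  have hdep : DepOn {v | S0 in0 v ∨ v < i + 1 + 2}
      (fun φ : ℕ → V => ind (D < (lk A (φ (pA b i)) (φ (pB b i))).card)) := by
    intro φ φ' hφ
    have e1 := hφ (pA b i) (Or.inr (by omega))
    have e2 := hφ (pB b i) (Or.inr (by omega))
    simp only [e1, e2]
  set f := st in0 b (i + 1) e with hf
  have hspec := st_spec b in0 (i + 1) e
  rw [← hf] at hspec
  have hf1 : f ≠ 2 * i + 1 := by
    intro h'
    exact hb1 (h' ▸ hspec.1)
  have hf2 : f ≠ 2 * i + 2 := by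
    intro h'
    exact hb2 (h' ▸ hspec.1)
  have hne : (ends b f).1 ≠ i + 2 ∧ (ends b f).2 ≠ i + 2 := by
    by_cases hE : E0 in0 f
    · obtain ⟨h1, h2⟩ := E0_S0 b in0 hdown f hE
      exact ⟨S0_succ' hin h1, S0_succ' hin h2⟩
    · have hle : f ≤ 2 * (i + 1) := hspec.2.resolve_left hE
      have h1 := ends_aux b f
      constructor
      · have := h1.1
        omega
      · have := h1.2.1
        omega
  have hstep : ∀ φ : ℕ → V, stp A b i (fun φ => ind (D < (lk A (φ (pA b i)) (φ (pB b i))).card) *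
      K' (φ (i + 2)) (φ (ends b f).1) (φ (ends b f).2)) φ ≤ (d : ℝ) / D := by
    intro φ
    have hDpos : (0 : ℝ) < D := by exact_mod_cast hD
    have hd0 : (0 : ℝ) ≤ (d : ℝ) / D := div_nonneg (Nat.cast_nonneg _) hDpos.le
    unfold stp
    have h3 : ∀ a, Function.update φ (i + 2) a (pA b i) = φ (pA b i) := fun a =>
      Function.update_of_ne (by omega) _ _
    have h4 : ∀ a, Function.update φ (i + 2) a (pB b i) = φ (pB b i) := fun a =>
      Function.update_of_ne (by omega) _ _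
    have h5 : ∀ a, Function.update φ (i + 2) a (ends b f).1 = φ (ends b f).1 := fun a =>
      Function.update_of_ne hne.1 _ _
    have h6 : ∀ a, Function.update φ (i + 2) a (ends b f).2 = φ (ends b f).2 := fun a =>
      Function.update_of_ne hne.2 _ _
    simp only [h3, h4, h5, h6, Function.update_self]
    by_cases hc : D < (lk A (φ (pA b i)) (φ (pB b i))).card
    · rw [ind_of hc]
      simp only [one_mul]
      have hsum : ∑ a ∈ lk A (φ (pA b i)) (φ (pB b i)), K' a (φ (ends b f).1) (φ (ends b f).2) ≤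
          (d : ℝ) :=
        (sum_le_sum_of_subset_of_nonneg (subset_univ _) (fun a _ _ => hK'.1 _ _ _)).trans
          (hK'.2 _ _)
      have hc' : (D : ℝ) ≤ ((lk A (φ (pA b i)) (φ (pB b i))).card : ℝ) := by
        exact_mod_cast hc.le
      exact div_le_div₀ (Nat.cast_nonneg _) hsum hDpos hc'
    · rw [ind_of_not hc]
      simp only [zero_mul, sum_const_zero, zero_div]
      exact hd0
  have hDpos : (0 : ℝ) < D := by exact_mod_cast hD
  calc _ ≤ gr A b in0 N (fun φ => ind (D < (lk A (φ (pA b i)) (φ (pB b i))).card) *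
        kerL Lf d (φ (i + 2)) (φ (ends b e).1) (φ (ends b e).2)) φ0 := by
        refine gr_mono A b in0 N _ _ φ0 (fun φ _ => ?_)
        by_cases hc : (Lf (φ (ends b e).1) (φ (ends b e).2)).card ≤ d ∧
          φ (i + 2) ∈ Lf (φ (ends b e).1) (φ (ends b e).2) ∧
          D < (lk A (φ (pA b i)) (φ (pB b i))).card
        · rw [ind_of hc, ind_of hc.2.2, kerL, ind_of ⟨hc.1, hc.2.1⟩]
          norm_num
        · rw [ind_of_not hc]
          exact mul_nonneg (ind_nonneg _) (ind_nonneg _)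
    _ ≤ gr A b in0 (i + 1) (fun φ => ind (D < (lk A (φ (pA b i)) (φ (pB b i))).card) *
        K' (φ (i + 2)) (φ (ends b f).1) (φ (ends b f).2)) φ0 :=
        h (fun φ => ind (D < (lk A (φ (pA b i)) (φ (pB b i))).card)) (fun φ => ind_nonneg _) hdep φ0
    _ = gr A b in0 i (stp A b i (fun φ => ind (D < (lk A (φ (pA b i)) (φ (pB b i))).card) *
        K' (φ (i + 2)) (φ (ends b f).1) (φ (ends b f).2))) φ0 := gr_succ_out A b in0 hin _ _
    _ ≤ gr A b in0 i (fun _ => (d : ℝ) / D) φ0 := gr_mono A b in0 i _ _ φ0 (fun φ _ => hstep φ)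
    _ ≤ (d : ℝ) / D := gr_const_le A b in0 i _ (div_nonneg (Nat.cast_nonneg _) hDpos.le) φ0

lemma supp_eq {V : Type} [Fintype V] [DecidableEq V] {A : Finset (Finset V)} {b : ℕ → ℕ}
    {in0 : ℕ → Prop} {m : ℕ} {φ0 φ : ℕ → V} (h : Supp A b in0 m φ0 φ) {v : ℕ} (hv : S0 in0 v) :
    φ v = φ0 v := by
  refine h.1 v (fun i _ hi0 hvi => ?_)
  exact S0_succ' hi0 hv hvi

lemma stp_eq_self {V : Type} [Fintype V] [DecidableEq V] (A : Finset (Finset V)) (b : ℕ → ℕ)
    (i : ℕ) (F : (ℕ → V) → ℝ) (φ : ℕ → V)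
    (hne : (lk A (φ (pA b i)) (φ (pB b i))).Nonempty)
    (h : ∀ a, F (Function.update φ (i + 2) a) = F φ) : stp A b i F φ = F φ := by
  unfold stp
  rw [sum_congr rfl (fun a _ => h a), sum_const, nsmul_eq_mul]
  have hc' : (0 : ℝ) < (lk A (φ (pA b i)) (φ (pB b i))).card := by
    exact_mod_cast hne.card_pos
  rw [mul_div_assoc, mul_comm, div_mul_cancel₀ _ hc'.ne']

lemma gr_ge {V : Type} [Fintype V] [DecidableEq V] (A : Finset (Finset V)) (b : ℕ → ℕ)
    (in0 : ℕ → Prop) (m : ℕ) (F : (ℕ → V) → ℝ) (hdep : DepOn {v | S0 in0 v ∨ v < m + 2} F)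
    (φ0 : ℕ → V) (m' : ℕ) (hm : m ≤ m')
    (hne : ∀ j, m ≤ j → j < m' → ¬ in0 j → ∀ φ, Supp A b in0 j φ0 φ →
      (lk A (φ (pA b j)) (φ (pB b j))).Nonempty) :
    gr A b in0 m F φ0 ≤ gr A b in0 m' F φ0 := by
  induction m', hm using Nat.le_induction with
  | base => exact le_rfl
  | succ m' hle ih =>
    have ih' := ih (fun j hj hj' hj0 φ hφ => hne j hj (by omega) hj0 φ hφ)
    by_cases hin : in0 m'
    · rw [gr_succ_in A b in0 hin]
      exact ih'
    · rw [gr_succ_out A b in0 hin]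
      refine ih'.trans (gr_mono A b in0 m' _ _ φ0 (fun φ hφ => ?_))
      refine (stp_eq_self A b m' F φ (hne m' hle (by omega) hin φ hφ) (fun a => ?_)).ge
      refine hdep _ _ (fun v hv => ?_)
      rw [Function.update_of_ne]
      rintro rfl
      rcases hv with hv | hv
      · exact hin ((S0_succ in0).1 hv)
      · omega

lemma mem_lk_rot {V : Type} [Fintype V] [DecidableEq V] {A : Finset (Finset V)} {x y z : V}
    (h : z ∈ lk A x y) : y ∈ lk A z x := by
  rw [mem_lk] at h ⊢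
  have : ({z, x, y} : Finset V) = {x, y, z} := by
    ext w
    simp only [mem_insert, mem_singleton]
    tauto
  rw [this]
  exact h

lemma edge_nonempty {V : Type} [Fintype V] [DecidableEq V] {A : Finset (Finset V)} {b : ℕ → ℕ}
    {in0 : ℕ → Prop} (hd : ∀ j, in0 j → E0 in0 (bs b j)) {X : ℕ → Prop} {m : ℕ} {φ0 φ : ℕ → V}
    (hφ : Supp A b in0 m φ0 φ)
    (hne : ∀ e, E0 in0 e → ¬ X e → (lk A (φ0 (ends b e).1) (φ0 (ends b e).2)).Nonempty)
    (f : ℕ) (hf : f ≤ 2 * m) (hX : ¬ X f) :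
    (lk A (φ (ends b f).1) (φ (ends b f).2)).Nonempty := by
  by_cases hE : E0 in0 f
  · obtain ⟨h1, h2⟩ := E0_S0 b in0 hd f hE
    rw [supp_eq hφ h1, supp_eq hφ h2]
    exact hne f hE hX
  · rcases edge_cases f with rfl | ⟨j, hj⟩
    · exact absurd (Or.inl rfl) hE
    · have hin : ¬ in0 j := fun h => hE (Or.inr ⟨j, h, hj⟩)
      have hmem := hφ.2 j (by omega) hin
      rcases hj with rfl | rfl
      · rw [ends_odd]
        exact ⟨_, mem_lk_rot hmem⟩
      · rw [ends_even]
        rw [lk_comm] at hmem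
        exact ⟨_, mem_lk_rot hmem⟩

lemma cnt2_eq {V : Type} [Fintype V] [DecidableEq V] (P : V → V → Prop) :
    (cnt2 P : ℝ) = ∑ x, ∑ y, ind (P x y) := by
  classical
  unfold cnt2
  rw [← Fintype.sum_prod_type' (f := fun x y => ind (P x y)), card_filter]
  push_cast
  refine sum_congr rfl (fun p _ => ?_)
  by_cases h : P p.1 p.2
  · rw [ind_of h, if_pos h]
  · rw [ind_of_not h, if_neg h]

/-- common final part of ACC4: `u` is one of the two base ends, the edge `g` the other edge of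
the triangle -/
lemma acc4_aux (hTRF : TRF_S) (hDENS : DENS_S) (V : Type) [Fintype V] [DecidableEq V] (N : ℕ)
    (b : ℕ → ℕ)
    (in0 : ℕ → Prop) (J : Finset ℕ) (X : ℕ → Prop) (A B : Finset (Finset V)) (M : ℝ) (d0 : ℕ)
    (z : ℕ → V) (Ω : Finset (Fin (N + 2) → V)) (R : (Fin (N + 2) → V) → Finset V)
    (hT0 : Tree0 N b in0 J X) (hA : IsUniform 3 A) (hM : 1 ≤ M)
    (hS : ∀ ω ∈ Ω, Start N b in0 J X A B M d0 (ini N J z ω) (R ω))
    (Lf : V → V → Finset V) (d D : ℕ) (e : ℕ) (he : e ≤ 2 * N) (i : ℕ) (hi : i < N)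
    (hin : ¬ in0 i) (g u c : ℕ) (hg : st in0 b (i + 1) e = g) (hge : ends b g = (i + 2, c))
    (hcu : (c = pA b i ∧ u = pB b i) ∨ (c = pB b i ∧ u = pA b i)) :
    ∑ ω ∈ Ω, gr A b in0 N (fun φ => ind ((Lf (φ (ends b e).1) (φ (ends b e).2)).card ≤ d ∧
      φ u ∈ Lf (φ (ends b e).1) (φ (ends b e).2) ∧
      D < (lk A (φ (i + 2)) (φ c)).card)) (ini N J z ω) ≤
      M * (Fintype.card V : ℝ) ^ N * (d * cnt2 (fun x y : V => D < (lk A x y).card)) := by
  have hdown : ∀ j, in0 j → E0 in0 (bs b j) := fun j hj => hT0.down j (hT0.inN j hj) hj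
  have hK := ker_kerL (V := V) Lf d
  have hp := p_le b i
  have hc : c ≤ i + 1 := by rcases hcu with h | h <;> omega
  have hu : u ≤ i + 1 := by rcases hcu with h | h <;> omega
  obtain ⟨K', hK', h⟩ := hTRF V A b in0 hdown N (i + 1) (by omega) e he u
    (Or.inr (by omega)) (d : ℝ) (kerL Lf d) (Nat.cast_nonneg _) hK
  rw [hg, hge] at h
  have hdep : DepOn {v | S0 in0 v ∨ v < i + 1 + 2}
      (fun φ : ℕ → V => ind (D < (lk A (φ (i + 2)) (φ c)).card)) := by
    intro φ φ' hφ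
    have e1 := hφ (i + 2) (Or.inr (by omega))
    have e2 := hφ c (Or.inr (by omega))
    simp only [e1, e2]
  have hdep2 : DepOn {v | S0 in0 v ∨ v < i + 1 + 2}
      (fun φ : ℕ → V => ind (D < (lk A (φ (i + 2)) (φ c)).card) *
        K' (φ u) (φ (i + 2)) (φ c)) := by
    intro φ φ' hφ
    have e1 := hφ (i + 2) (Or.inr (by omega))
    have e2 := hφ c (Or.inr (by omega))
    have e3 := hφ u (Or.inr (by omega))
    simp only [e1, e2, e3]
  have key : ∀ ω ∈ Ω, gr A b in0 N (fun φ => ind ((Lf (φ (ends b e).1) (φ (ends b e).2)).card ≤ d ∧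
      φ u ∈ Lf (φ (ends b e).1) (φ (ends b e).2) ∧
      D < (lk A (φ (i + 2)) (φ c)).card)) (ini N J z ω) ≤
      gr A b in0 N (fun φ : ℕ → V => ind (D < (lk A (φ (i + 2)) (φ c)).card) *
        K' (φ u) (φ (i + 2)) (φ c)) (ini N J z ω) := by
    intro ω hω
    calc _ ≤ gr A b in0 N (fun φ => ind (D < (lk A (φ (i + 2)) (φ c)).card) *
          kerL Lf d (φ u) (φ (ends b e).1) (φ (ends b e).2)) (ini N J z ω) := by
          refine gr_mono A b in0 N _ _ _ (fun φ _ => ?_)
          by_cases hc : (Lf (φ (ends b e).1) (φ (ends b e).2)).card ≤ d ∧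
            φ u ∈ Lf (φ (ends b e).1) (φ (ends b e).2) ∧
            D < (lk A (φ (i + 2)) (φ c)).card
          · rw [ind_of hc, ind_of hc.2.2, kerL, ind_of ⟨hc.1, hc.2.1⟩]
            norm_num
          · rw [ind_of_not hc]
            exact mul_nonneg (ind_nonneg _) (ind_nonneg _)
      _ ≤ gr A b in0 (i + 1) (fun φ => ind (D < (lk A (φ (i + 2)) (φ c)).card) *
          K' (φ u) (φ (i + 2)) (φ c)) (ini N J z ω) :=
          h (fun φ => ind (D < (lk A (φ (i + 2)) (φ c)).card)) (fun φ => ind_nonneg _) hdep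
            (ini N J z ω)
      _ ≤ _ := by
          refine gr_ge A b in0 (i + 1) _ hdep2 _ N (by omega) (fun j hj hjN hj0 φ hφ => ?_)
          exact edge_nonempty hdown hφ (hS ω hω).ne (bs b j) (bs_le b j) (hT0.real j hjN hj0)
  refine (sum_le_sum key).trans ?_
  have hMn : (0 : ℝ) ≤ M * (Fintype.card V : ℝ) ^ N :=
    mul_nonneg (by linarith) (pow_nonneg (Nat.cast_nonneg _) _)
  have hsum1 : ∀ a x : V, ∑ w : V, ind (D < (lk A a x).card) * K' w a x ≤
      ind (D < (lk A a x).card) * (d : ℝ) := by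
    intro a x
    rw [← mul_sum]
    exact mul_le_mul_of_nonneg_left (hK'.2 a x) (ind_nonneg _)
  have hfin : ∑ a : V, ∑ x : V, ∑ w : V, ind (D < (lk A a x).card) * K' w a x ≤
      d * cnt2 (fun x y : V => D < (lk A x y).card) := by
    calc _ ≤ ∑ a : V, ∑ x : V, ind (D < (lk A a x).card) * (d : ℝ) :=
          sum_le_sum (fun a _ => sum_le_sum (fun x _ => hsum1 a x))
      _ = d * cnt2 (fun x y : V => D < (lk A x y).card) := by
          rw [cnt2_eq, mul_sum]
          refine sum_congr rfl (fun a _ => ?_)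
          rw [mul_sum]
          exact sum_congr rfl (fun x _ => mul_comm _ _)
  rcases hcu with ⟨rfl, rfl⟩ | ⟨rfl, rfl⟩
  · have hD := hDENS V N b in0 J X A B M d0 z Ω R hT0 hA hM hS i hi hin
      (fun a p q => ind (D < (lk A a p).card) * K' q a p)
      (fun a p q => mul_nonneg (ind_nonneg _) (hK'.1 _ _ _))
    refine hD.trans (mul_le_mul_of_nonneg_left ?_ hMn)
    refine le_trans ?_ hfin
    calc _ ≤ ∑ p : V, ∑ q : V, ∑ a : V, ind (D < (lk A a p).card) * K' q a p :=
          sum_le_sum (fun p _ => sum_le_sum (fun q _ =>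
            sum_le_sum_of_subset_of_nonneg (subset_univ _)
              (fun a _ _ => mul_nonneg (ind_nonneg _) (hK'.1 _ _ _))))
      _ = ∑ p : V, ∑ a : V, ∑ q : V, ind (D < (lk A a p).card) * K' q a p :=
          sum_congr rfl (fun p _ => sum_comm)
      _ = _ := sum_comm
      _ ≤ _ := le_rfl
  · have hD := hDENS V N b in0 J X A B M d0 z Ω R hT0 hA hM hS i hi hin
      (fun a p q => ind (D < (lk A a q).card) * K' p a q)
      (fun a p q => mul_nonneg (ind_nonneg _) (hK'.1 _ _ _))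
    refine hD.trans (mul_le_mul_of_nonneg_left ?_ hMn)
    refine le_trans ?_ hfin
    calc _ ≤ ∑ p : V, ∑ q : V, ∑ a : V, ind (D < (lk A a q).card) * K' p a q :=
          sum_le_sum (fun p _ => sum_le_sum (fun q _ =>
            sum_le_sum_of_subset_of_nonneg (subset_univ _)
              (fun a _ _ => mul_nonneg (ind_nonneg _) (hK'.1 _ _ _))))
      _ = ∑ q : V, ∑ p : V, ∑ a : V, ind (D < (lk A a q).card) * K' p a q := sum_comm
      _ = ∑ q : V, ∑ a : V, ∑ p : V, ind (D < (lk A a q).card) * K' p a q :=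
          sum_congr rfl (fun q _ => sum_comm)
      _ = _ := sum_comm

theorem acc4 (hTRF : TRF_S) (hDENS : DENS_S) : ACC4_S := by
  intro V _ _ N b in0 J X A B M d0 z Ω R hT0 hA hM hS Lf d D e he i hi hin
  have hdown : ∀ j, in0 j → E0 in0 (bs b j) := fun j hj => hT0.down j (hT0.inN j hj) hj
  constructor
  · intro hb
    exact acc4_aux hTRF hDENS V N b in0 J X A B M d0 z Ω R hT0 hA hM hS Lf d D e he i hi hin
      (2 * i + 1) (pB b i) (pA b i) (st_of_odd b in0 hdown i hin e hb) (ends_odd b i)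
      (Or.inl ⟨rfl, rfl⟩)
  · intro hb
    exact acc4_aux hTRF hDENS V N b in0 J X A B M d0 z Ω R hT0 hA hM hS Lf d D e he i hi hin
      (2 * i + 2) (pA b i) (pB b i) (st_of_even b in0 hdown i hin e hb) (ends_even b i)
      (Or.inr ⟨rfl, rfl⟩)

end MP_182bbb_co.TT.H52
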