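import Pool.Agent.Lib.MP_182bbb_co.TT.Iface

/-!
# MP_182bbb_co, module CNT: the counting lemma
-/

open Finset

namespace MP_182bbb_co.TT.H52

variable {V : Type*} [Fintype V]

open Classical in
/-- indicator of a binary relation -/
noncomputable def rr (P : V → V → Prop) (x y : V) : ℝ := if P x y then 1 else 0

omit [Fintype V] in
lemma rr_nonneg (P : V → V → Prop) (x y : V) : 0 ≤ rr P x y := by
  unfold rr
  split_ifs <;> norm_num

omit [Fintype V] in
lemma rr_le (P : V → V → Prop) (x y : V) : rr P x y ≤ 1 := by
  unfold rr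
  split_ifs <;> norm_num

lemma cnt2_eq_c (P : V → V → Prop) : (cnt2 P : ℝ) = ∑ x, ∑ y, rr P x y := by
  classical
  unfold cnt2
  rw [card_filter, ← univ_product_univ, sum_product]
  push_cast
  refine sum_congr rfl fun x _ => sum_congr rfl fun y _ => ?_
  unfold rr
  split_ifs <;> rfl

lemma cnt3_eq_c (P Q : V → V → Prop) :
    (cnt3 (fun x x' y => P x y ∧ P x' y ∧ Q x x') : ℝ) =
      ∑ x, ∑ x', ∑ y, rr P x y * rr P x' y * rr Q x x' := by
  classical
  unfold cnt3
  rw [card_filter, ← univ_product_univ, sum_product]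
  push_cast
  refine sum_congr rfl fun x _ => ?_
  rw [← univ_product_univ, sum_product]
  refine sum_congr rfl fun y _ => sum_congr rfl fun z _ => ?_
  unfold rr
  by_cases h1 : P x z <;> by_cases h2 : P y z <;> by_cases h3 : Q x y <;> simp [h1, h2, h3]

theorem cnt : CNT_S := by
  classical
  intro V _ _ P Q τ δ hτ hδ hsym hcnt
  rw [cnt3_eq_c] at hcnt
  rw [cnt2_eq_c, cnt2_eq_c]
  set n : ℝ := (Fintype.card V : ℝ) with hn
  have hn0 : 0 ≤ n := Nat.cast_nonneg _
  have hcard : ∀ c : ℝ, ∑ _x : V, c = n * c := fun c => by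
    rw [sum_const, card_univ, nsmul_eq_mul]
  set d : V → ℝ := fun x => ∑ y, rr P x y with hd
  have hps : ∀ x y, rr P x y = rr P y x := fun x y => by
    unfold rr
    by_cases h : P x y
    · rw [if_pos h, if_pos (hsym _ _ h)]
    · rw [if_neg h, if_neg (fun h' => h (hsym _ _ h'))]
  rcases hn0.eq_or_lt with h0 | hpos
  · have : Fintype.card V = 0 := by
      rw [hn] at h0
      exact_mod_cast h0.symm
    have he : IsEmpty V := Fintype.card_eq_zero_iff.1 this
    simp [← h0]
  have hd0 : ∀ x, 0 ≤ d x := fun x => sum_nonneg fun y _ => rr_nonneg _ _ _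
  set D : V → Prop := fun x => τ * n ≤ d x with hD
  have hdpos : ∀ x, D x → 0 < d x := fun x hx => lt_of_lt_of_le (by positivity) hx
  set S : ℝ := ∑ x, ∑ y, (if D x ∧ D y then rr P x y * (d y / d x) else 0) with hS
  -- lower bound
  have low : ∑ x, ∑ y, rr P x y - 2 * τ * n ^ 2 ≤ S := by
    have h1 : ∑ x, ∑ y, (if D x ∧ D y then rr P x y else 0) ≤ S := by
      have e1 : S = ∑ x, ∑ y, (if D x ∧ D y then rr P x y * (d x / d y) else 0) := by
        rw [hS, sum_comm]
        refine sum_congr rfl fun x _ => sum_congr rfl fun y _ => ?_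
        rw [hps y x]
        by_cases h1 : D x <;> by_cases h2 : D y <;> simp [h1, h2]
      have e2 : S + S = ∑ x, ∑ y, ((if D x ∧ D y then rr P x y * (d y / d x) else 0) +
          (if D x ∧ D y then rr P x y * (d x / d y) else 0)) := by
        simp only [sum_add_distrib]
        rw [← hS, ← e1]
      have e3 : ∑ x, ∑ y, (if D x ∧ D y then rr P x y else 0) +
          ∑ x, ∑ y, (if D x ∧ D y then rr P x y else 0) ≤ S + S := by
        rw [e2]
        simp only [← sum_add_distrib]
        refine sum_le_sum fun x _ => sum_le_sum fun y _ => ?_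
        split_ifs with h
        · have hx := hdpos x h.1
          have hy := hdpos y h.2
          have h3 : 2 ≤ d y / d x + d x / d y := by
            rw [div_add_div _ _ hx.ne' hy.ne', le_div_iff₀ (by positivity)]
            nlinarith [sq_nonneg (d x - d y)]
          nlinarith [rr_nonneg P x y]
        · exact le_rfl
      linarith
    have h2 : ∑ x, ∑ y, rr P x y ≤ ∑ x, ∑ y, (if D x ∧ D y then rr P x y else 0) +
        ∑ x, (if D x then 0 else d x) + ∑ y, (if D y then 0 else d y) := by
      have e1 : ∑ x, (if D x then 0 else d x) = ∑ x, ∑ y, (if D x then 0 else rr P x y) := by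
        refine sum_congr rfl fun x _ => ?_
        by_cases h : D x
        · simp [h]
        · simp [h, hd]
      have e2 : ∑ y, (if D y then 0 else d y) = ∑ x, ∑ y, (if D y then 0 else rr P x y) := by
        rw [sum_comm]
        refine sum_congr rfl fun x _ => ?_
        by_cases h : D x
        · simp [h]
        · simp only [h, if_false, hd]
          exact sum_congr rfl fun y _ => hps _ _
      have e3 : ∑ x, ∑ y, rr P x y ≤ ∑ x, ∑ y, (if D x ∧ D y then rr P x y else 0) +
          ∑ x, ∑ y, (if D x then 0 else rr P x y) + ∑ x, ∑ y, (if D y then 0 else rr P x y) := by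
        simp only [← sum_add_distrib]
        refine sum_le_sum fun x _ => sum_le_sum fun y _ => ?_
        have := rr_nonneg P x y
        by_cases h1 : D x <;> by_cases h2 : D y <;> simp [h1, h2, this]
      linarith [e1, e2, e3]
    have h3 : ∑ x, (if D x then 0 else d x) ≤ n * (τ * n) := by
      rw [← hcard]
      refine sum_le_sum fun x _ => ?_
      split_ifs with h
      · positivity
      · exact (not_le.1 h).le
    nlinarith
  -- upper bound
  have up : S ≤ n ^ 2 - ∑ x, ∑ y, rr Q x y + δ / τ * n ^ 2 := by
    have h1 : ∀ x, ∑ y, (if D x ∧ D y then rr P x y * (d y / d x) else 0) ≤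
        ∑ x', (1 - rr Q x x') +
          (∑ x', ∑ y, rr P x y * rr P x' y * rr Q x x') / (τ * n) := by
      intro x
      have hr0 : 0 ≤ ∑ x', ∑ y, rr P x y * rr P x' y * rr Q x x' :=
        sum_nonneg fun x' _ => sum_nonneg fun y _ =>
          mul_nonneg (mul_nonneg (rr_nonneg _ _ _) (rr_nonneg _ _ _)) (rr_nonneg _ _ _)
      have hq0 : 0 ≤ ∑ x', (1 - rr Q x x') :=
        sum_nonneg fun x' _ => sub_nonneg.2 (rr_le _ _ _)
      by_cases hx : D x
      · have hdx := hdpos x hx
        have h2 : ∑ y, (if D x ∧ D y then rr P x y * (d y / d x) else 0) ≤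
            (∑ y, rr P x y * d y) / d x := by
          rw [sum_div]
          refine sum_le_sum fun y _ => ?_
          split_ifs
          · rw [mul_div_assoc]
          · exact div_nonneg (mul_nonneg (rr_nonneg _ _ _) (hd0 _)) hdx.le
        have h3 : ∑ y, rr P x y * d y = ∑ x', ∑ y, rr P x y * rr P x' y := by
          rw [sum_comm]
          refine sum_congr rfl fun y _ => ?_
          rw [hd, mul_sum]
          exact sum_congr rfl fun x' _ => by rw [hps y x']
        have h4 : ∑ x', ∑ y, rr P x y * rr P x' y ≤
            (∑ x', (1 - rr Q x x')) * d x + ∑ x', ∑ y, rr P x y * rr P x' y * rr Q x x' := by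
          rw [sum_mul, ← sum_add_distrib]
          refine sum_le_sum fun x' _ => ?_
          have e1 : ∑ y, rr P x y * rr P x' y * rr Q x x' =
              (∑ y, rr P x y * rr P x' y) * rr Q x x' := by rw [sum_mul]
          have e2 : ∑ y, rr P x y * rr P x' y ≤ d x :=
            sum_le_sum fun y _ => mul_le_of_le_one_right (rr_nonneg _ _ _) (rr_le _ _ _)
          rw [e1]
          nlinarith [rr_le Q x x']
        have h5 : (∑ x', ∑ y, rr P x y * rr P x' y * rr Q x x') / d x ≤
            (∑ x', ∑ y, rr P x y * rr P x' y * rr Q x x') / (τ * n) :=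
          div_le_div_of_nonneg_left hr0 (by positivity) hx
        refine h2.trans ?_
        rw [h3]
        refine (div_le_div_of_nonneg_right h4 hdx.le).trans ?_
        rw [add_div, mul_div_assoc, div_self hdx.ne', mul_one]
        linarith
      · have : ∑ y, (if D x ∧ D y then rr P x y * (d y / d x) else 0) = 0 :=
          sum_eq_zero fun y _ => if_neg fun h => hx h.1
        rw [this]
        positivity
    have h2 := sum_le_sum fun x (_ : x ∈ (univ : Finset V)) => h1 x
    rw [sum_add_distrib, ← sum_div] at h2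
    have h3 : ∑ x : V, ∑ x' : V, (1 - rr Q x x') = n ^ 2 - ∑ x, ∑ y, rr Q x y := by
      simp only [sum_sub_distrib]
      congr 1
      simp only [hcard]
      ring
    rw [h3] at h2
    refine h2.trans ?_
    have h4 : (∑ x, ∑ x', ∑ y, rr P x y * rr P x' y * rr Q x x') / (τ * n) ≤ δ / τ * n ^ 2 := by
      rw [div_le_iff₀ (by positivity)]
      refine hcnt.trans (le_of_eq ?_)
      field_simp
    linarith
  nlinarith

end MP_182bbb_co.TT.H52
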