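import Pool.Agent.Lib.MP_182bbb_co.TT.H52.Peel

/-!
# MP_182bbb_co, module HEAVY: few heavy pairs
-/

open Finset

namespace MP_182bbb_co.TT.H52

open MP_182bbb_co.H5

variable {V : Type*} [DecidableEq V] [Fintype V]

lemma hasExp_mono {N : ℕ} {b : ℕ → ℕ} {F G : Finset (Finset V)} (h : F ⊆ G)
    (hF : HasExp N b F) : HasExp N b G := by
  obtain ⟨φ, ξ, h1, h2, h3, h4⟩ := hF
  exact ⟨φ, ξ, h1, h2, h3, fun e he => lk_mono h _ _ (h4 e he)⟩

/-- the number of orderings of a triple -/
lemma card_orders {e : Finset V} (he : e.card = 3) :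
    ((univ : Finset (V × V × V)).filter
      (fun p => ({p.1, p.2.1, p.2.2} : Finset V) = e)).card ≤ 6 := by
  obtain ⟨a, b, c, hab, hac, hbc, rfl⟩ := card_eq_three.1 he
  have hsub : (univ : Finset (V × V × V)).filter
      (fun p => ({p.1, p.2.1, p.2.2} : Finset V) = {a, b, c}) ⊆
      {(a, b, c), (a, c, b), (b, a, c), (b, c, a), (c, a, b), (c, b, a)} := by
    rintro ⟨x, y, z⟩ hp
    rw [mem_filter] at hp
    have hp := hp.2
    simp only at hp
    have hc : ({x, y, z} : Finset V).card = 3 := by rw [hp]; exact he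
    obtain ⟨h1, h2, h3⟩ := ne_of_card_three hc
    have hx : x ∈ ({a, b, c} : Finset V) := by rw [← hp]; simp
    have hy : y ∈ ({a, b, c} : Finset V) := by rw [← hp]; simp
    have hz : z ∈ ({a, b, c} : Finset V) := by rw [← hp]; simp
    simp only [mem_insert, mem_singleton] at hx hy hz ⊢
    rcases hx with rfl | rfl | rfl <;> rcases hy with rfl | rfl | rfl <;>
      rcases hz with rfl | rfl | rfl <;> simp_all
  refine (card_le_card hsub).trans ?_
  exact card_le_six

lemma sum_lk_le {F : Finset (Finset V)} (hF : IsUniform 3 F) :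
    ∑ p : V × V, (lk F p.1 p.2).card ≤ 6 * F.card := by
  have e1 : ∑ p : V × V, (lk F p.1 p.2).card =
      ((univ : Finset (V × V × V)).filter
        (fun p => ({p.1, p.2.1, p.2.2} : Finset V) ∈ F)).card := by
    rw [card_filter, ← univ_product_univ, sum_product, ← univ_product_univ, sum_product]
    refine sum_congr rfl fun x _ => ?_
    rw [← univ_product_univ, sum_product]
    refine sum_congr rfl fun y _ => ?_
    unfold lk
    rw [card_filter]
  rw [e1]
  have e2 : (univ : Finset (V × V × V)).filter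
        (fun p => ({p.1, p.2.1, p.2.2} : Finset V) ∈ F) =
      F.biUnion (fun e => (univ : Finset (V × V × V)).filter
        (fun p => ({p.1, p.2.1, p.2.2} : Finset V) = e)) := by
    ext p
    simp
  rw [e2]
  refine card_biUnion_le.trans ?_
  rw [mul_comm, ← smul_eq_mul, ← sum_const]
  exact sum_le_sum fun e he => card_orders (hF e he)

theorem heavy (hP : PEEL_S) (hG : GREED_S) : HEAVY_S := by
  classical
  intro V _ _ N b G hu hno F hFG
  have huF : IsUniform 3 F := fun e he => hu e (hFG he)
  obtain ⟨p1, _, _, p4⟩ := hP V F huF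
  have hemp : kcore (3 * N + 3) F = ∅ := by
    by_contra hne
    refine hno (hasExp_mono ((p1 (3 * N + 3)).1.trans hFG) ?_)
    exact hG V N b _ (fun e he => huF e ((p1 (3 * N + 3)).1 he))
      (nonempty_iff_ne_empty.2 hne) (p1 (3 * N + 3)).2
  have h1 : 2 * F.card ≤ (3 * N + 2) * cnt2 (fun x y : V => (lk F x y).Nonempty) := by
    have := p4 (3 * N + 2)
    rw [show 3 * N + 2 + 1 = 3 * N + 3 from rfl, hemp] at this
    simpa using this
  refine ⟨h1, fun D => ?_⟩
  have h2 : D * cnt2 (fun x y : V => D < (lk F x y).card) ≤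
      ∑ p : V × V, (lk F p.1 p.2).card := by
    have e : ∀ s : Finset (V × V), (∀ p ∈ s, D < (lk F p.1 p.2).card) →
        D * s.card ≤ ∑ p : V × V, (lk F p.1 p.2).card := by
      intro s hs
      rw [mul_comm, ← smul_eq_mul, ← sum_const]
      exact (sum_le_sum fun p hp => (hs p hp).le).trans (sum_le_sum_of_subset (subset_univ _))
    refine e _ fun p hp => ?_
    simp only [mem_filter, mem_univ, true_and] at hp
    exact hp
  refine h2.trans ((sum_lk_le huF).trans ?_)
  have e : (9 * N + 6) * cnt2 (fun x y : V => (lk F x y).Nonempty) =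
      3 * ((3 * N + 2) * cnt2 (fun x y : V => (lk F x y).Nonempty)) := by ring
  rw [e]
  omega

end MP_182bbb_co.TT.H52
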