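import Pool.Agent.Lib.MP_182bbb_co.TT.H52.Acc
import Pool.Agent.Lib.MP_182bbb_co.TT.H52.Heavy

/-!
# LL0: the local lemma for k = 0
-/

open Finset

namespace MP_182bbb_co.TT.H52

open MP_182bbb_co.H5 MP_182bbb_co.TT

lemma ini0 {V : Type} (N : ℕ) (z : ℕ → V) (ω : Fin (N + 2) → V) :
    ini N ∅ z ω 0 = ω 0 := by
  rw [ini, if_neg (by simp), dif_pos (by omega)]
  rfl

lemma ini1 {V : Type} (N : ℕ) (z : ℕ → V) (ω : Fin (N + 2) → V) :
    ini N ∅ z ω 1 = ω 1 := by
  rw [ini, if_neg (by simp), dif_pos (by omega)]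
  rfl

lemma S0_false {v : ℕ} (h : S0 (fun _ => False) v) : v = 0 ∨ v = 1 := by
  rcases h with h | ⟨i, h, -⟩
  · omega
  · exact h.elim

lemma E0_false {e : ℕ} (h : E0 (fun _ => False) e) : e = 0 := by
  rcases h with h | ⟨i, h, -⟩
  · exact h
  · exact h.elim

lemma tree0_false (N : ℕ) (b : ℕ → ℕ) : Tree0 N b (fun _ => False) ∅ (fun _ => False) where
  down := fun _ _ h => h.elim
  inN := fun _ h => h.elim
  real := fun _ _ _ h => h
  xe := fun _ h => h.elim
  js := fun v hv => by simp at hv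
  jind := fun e h => by simp at h

lemma lk_self {V : Type} [Fintype V] [DecidableEq V] {A : Finset (Finset V)} (hA : IsUniform 3 A)
    (x : V) : lk A x x = ∅ := by
  rw [eq_empty_iff_forall_notMem]
  intro w hw
  rw [mem_lk] at hw
  have h3 := hA _ hw
  have : ({x, x, w} : Finset V) = {x, w} := by simp
  rw [this] at h3
  have := card_le_two (a := x) (b := w)
  omega

/-- counting functions with a condition on the first two coordinates -/
lemma card_omega {V : Type} [Fintype V] [DecidableEq V] (N : ℕ) (P : V → V → Prop)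
    [DecidablePred (fun ω : Fin (N + 2) → V => P (ω 0) (ω 1))] :
    cnt2 P * Fintype.card V ^ N ≤
      ((univ : Finset (Fin (N + 2) → V)).filter
        (fun ω : Fin (N + 2) → V => P (ω 0) (ω 1))).card := by
  classical
  unfold cnt2
  have h1 : Fintype.card V ^ N = (univ : Finset (Fin N → V)).card := by
    rw [card_univ, Fintype.card_fun, Fintype.card_fin]
  rw [h1, ← card_product]
  refine card_le_card_of_injOn
    (fun p : (V × V) × (Fin N → V) =>
      Fin.cons (α := fun _ => V) p.1.1 (Fin.cons (α := fun _ => V) p.1.2 p.2)) ?_ ?_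
  · intro p hp
    simp only [coe_product, Set.mem_prod, mem_coe, mem_filter, mem_univ, true_and, and_true] at hp ⊢
    have h0 : (Fin.cons (α := fun _ => V) p.1.1 (Fin.cons (α := fun _ => V) p.1.2 p.2) :
      Fin (N + 2) → V) 0 = p.1.1 := rfl
    have h1 : (Fin.cons (α := fun _ => V) p.1.1 (Fin.cons (α := fun _ => V) p.1.2 p.2) :
      Fin (N + 2) → V) 1 = p.1.2 := rfl
    rw [h0, h1]
    exact hp
  · intro p _ q _ hpq
    have h := Fin.cons_injective2 (α := fun _ => V) hpq
    have h' := Fin.cons_injective2 (α := fun _ => V) h.2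
    exact Prod.ext (Prod.ext h.1 h'.1) h'.2

theorem ll0 (hPEEL : PEEL_S) (hHEAVY : HEAVY_S) (hALL : ALL_S) (hGROW : GROW_S)
    (hCORE0 : CORE0_S) : LL0_S := by
  classical
  intro N b δ hN hδ
  -- the bound for the light pairs
  obtain ⟨d0, hd0⟩ := exists_nat_gt (2 * (9 * (N : ℝ) + 6) / δ)
  obtain ⟨Dm, ε, n0, hε, hgrow⟩ := hGROW N (2 * N + 1) b (fun _ => False) ∅ (fun _ => False) hN
    (by omega) (tree0_false N b) (δ / 2) 1 (9 * (N : ℝ) + 6) d0 (by positivity)
  obtain ⟨n1, hall⟩ := hALL N b Dm ε hε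
  refine ⟨max (max n0 n1) 1, ?_⟩
  intro V _ _ G hn hG hcnt
  by_contra hno
  have hn0 : n0 ≤ Fintype.card V := by
    have := le_max_left n0 n1
    have := le_max_left (max n0 n1) 1
    omega
  have hn1 : n1 ≤ Fintype.card V := by
    have := le_max_right n0 n1
    have := le_max_left (max n0 n1) 1
    omega
  have hn2 : 1 ≤ Fintype.card V := by
    have := le_max_right (max n0 n1) 1
    omega
  obtain ⟨x0⟩ : Nonempty V := Fintype.card_pos_iff.1 hn2
  obtain ⟨hk, -, -, -⟩ := hPEEL V G hG
  obtain ⟨hAG, hAcore⟩ := hk (2 * N + 1)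
  set A := kcore (2 * N + 1) G with hAdef
  have hA : IsUniform 3 A := fun e he => hG e (hAG he)
  have hnoA : ¬ HasExp N b A := fun h => hno (hasExp_mono hAG h)
  obtain ⟨-, hheavy⟩ := hHEAVY V N b G hG hno A hAG
  have hn : (0 : ℝ) ≤ (Fintype.card V : ℝ) := Nat.cast_nonneg _
  have hcnt2le : ∀ P : V → V → Prop, (cnt2 P : ℝ) ≤ (Fintype.card V : ℝ) ^ 2 := by
    intro P
    have : cnt2 P ≤ Fintype.card V ^ 2 := by
      unfold cnt2
      refine (card_filter_le _ _).trans ?_
      rw [card_univ, Fintype.card_prod, sq]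
    exact_mod_cast this
  have hHD : ∀ D : ℕ, (D : ℝ) * cnt2 (fun x y : V => D < (lk A x y).card) ≤
      (9 * (N : ℝ) + 6) * (Fintype.card V : ℝ) ^ 2 := by
    intro D
    have h1 : ((D * cnt2 (fun x y : V => D < (lk A x y).card) : ℕ) : ℝ) ≤
        (((9 * N + 6) * cnt2 (fun x y : V => (lk A x y).Nonempty) : ℕ) : ℝ) := by
      exact_mod_cast hheavy D
    push_cast at h1
    refine h1.trans (mul_le_mul_of_nonneg_left (hcnt2le _) (by positivity))
  set P : V → V → Prop := fun x y => (lk A x y).Nonempty ∧ (lk A x y).card ≤ d0 with hPdef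
  -- the light pairs of the shadow
  have hP : δ / 2 * (Fintype.card V : ℝ) ^ 2 ≤ cnt2 P := by
    have h1 : (cnt2 (fun x y : V => sh (2 * N + 1) G x y) : ℝ) ≤
        cnt2 P + cnt2 (fun x y : V => d0 < (lk A x y).card) := by
      rw [cnt2_eq, cnt2_eq, cnt2_eq, ← sum_add_distrib]
      refine sum_le_sum (fun x _ => ?_)
      rw [← sum_add_distrib]
      refine sum_le_sum (fun y _ => ?_)
      by_cases h : sh (2 * N + 1) G x y
      · rw [ind_of h]
        by_cases h2 : (lk A x y).card ≤ d0
        · have : P x y := ⟨h, h2⟩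
          rw [ind_of this]
          have := ind_nonneg (d0 < (lk A x y).card)
          linarith
        · rw [ind_of (P := d0 < (lk A x y).card) (by omega)]
          have := ind_nonneg (P x y)
          linarith
      · rw [ind_of_not h]
        exact add_nonneg (ind_nonneg _) (ind_nonneg _)
    have h2 := hHD d0
    have hd0pos : (0 : ℝ) < d0 := lt_of_le_of_lt (by positivity) hd0
    have h3 : 9 * (N : ℝ) + 6 ≤ δ / 2 * d0 := by
      rw [div_lt_iff₀ hδ] at hd0
      linarith
    have h4 : (d0 : ℝ) * cnt2 (fun x y : V => d0 < (lk A x y).card) ≤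
        d0 * (δ / 2 * (Fintype.card V : ℝ) ^ 2) := by
      refine h2.trans ?_
      have := mul_le_mul_of_nonneg_right h3 (sq_nonneg (Fintype.card V : ℝ))
      linarith
    have h5 := le_of_mul_le_mul_left h4 hd0pos
    linarith
  set Ω : Finset (Fin (N + 2) → V) := univ.filter (fun ω => P (ω 0) (ω 1)) with hΩ
  have hΩcard : δ / 2 * (Fintype.card V : ℝ) ^ (N + 2) ≤ (Ω.card : ℝ) := by
    have h1 := card_omega N P
    have h2 : ((cnt2 P * Fintype.card V ^ N : ℕ) : ℝ) ≤ (Ω.card : ℝ) := by
      exact_mod_cast h1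
    push_cast at h2
    refine le_trans ?_ h2
    calc δ / 2 * (Fintype.card V : ℝ) ^ (N + 2)
        = (δ / 2 * (Fintype.card V : ℝ) ^ 2) * (Fintype.card V : ℝ) ^ N := by ring
      _ ≤ cnt2 P * (Fintype.card V : ℝ) ^ N :=
        mul_le_mul_of_nonneg_right hP (pow_nonneg hn _)
  have hstart : ∀ ω ∈ Ω, Start N b (fun _ => False) ∅ (fun _ => False) A A 1 d0
      (ini N ∅ (fun _ => x0) ω) ∅ := by
    intro ω hω
    rw [hΩ, mem_filter] at hω
    have hPω := hω.2
    have hne : ω 0 ≠ ω 1 := by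
      intro h
      have h1 := hPω.1
      rw [h, lk_self hA] at h1
      exact not_nonempty_empty h1
    refine ⟨?_, ?_, ?_, ?_, ?_, ?_, ?_⟩
    · intro v hv w hw hvw
      rcases S0_false hv with rfl | rfl <;> rcases S0_false hw with rfl | rfl
      · rfl
      · rw [ini0, ini1] at hvw
        exact absurd hvw hne
      · rw [ini0, ini1] at hvw
        exact absurd hvw.symm hne
      · rfl
    · intro v _
      exact notMem_empty _
    · simp
    · intro e he _
      rw [E0_false he, ends_zero]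
      show (lk A (ini N ∅ (fun _ => x0) ω 0) (ini N ∅ (fun _ => x0) ω 1)).Nonempty
      rw [ini0, ini1]
      exact hPω.1
    · intro e he _
      rw [E0_false he, Ls, if_neg (fun h => h), ends_zero]
      show (lk A (ini N ∅ (fun _ => x0) ω 0) (ini N ∅ (fun _ => x0) ω 1)).card ≤ d0
      rw [ini0, ini1]
      exact hPω.2
    · intro e _ h
      simp [hitJ] at h
    · intro e he _ v hv _ hend
      exfalso
      apply hend
      rw [E0_false he]
      unfold isEnd
      rw [ends_zero]
      exact S0_false hv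
  obtain ⟨ω, _, φ, d, _, hgood⟩ := hgrow V A A (fun _ => x0) Ω (fun _ => ∅) hn0 hA hAcore hHD
    (hall V A hn1 hA hnoA) hΩcard hstart
  exact hno (hCORE0 V G A N b φ d ∅ hG hAG hN hgood)

end MP_182bbb_co.TT.H52
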