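import Pool.Agent.Lib.MP_182bbb_co.TT.H52.Peel

/-!
# MP_182bbb_co, module UPPER: the asymptotic upper bound
-/

open Finset

namespace MP_182bbb_co.TT.H52

open MP_182bbb_co.H5

lemma sum_pair (N : ℕ) (f : ℕ → ℕ) :
    ∑ t ∈ Icc 1 (2 * N), f t = ∑ k ∈ Icc 1 N, (f (2 * N + 1 - k) + f k) := by
  have h1 : Icc 1 (2 * N) = Icc (N + 1) (2 * N) ∪ Icc 1 N := by
    ext t
    simp only [mem_Icc, mem_union]
    omega
  have h2 : Disjoint (Icc (N + 1) (2 * N)) (Icc 1 N) := by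
    rw [disjoint_left]
    intro t h3 h4
    rw [mem_Icc] at h3 h4
    omega
  rw [h1, sum_union h2, sum_add_distrib]
  congr 1
  refine sum_nbij' (fun t => 2 * N + 1 - t) (fun t => 2 * N + 1 - t) ?_ ?_ ?_ ?_ ?_
  · intro t ht
    rw [mem_Icc] at ht ⊢
    omega
  · intro t ht
    rw [mem_Icc] at ht ⊢
    omega
  · intro t ht
    rw [mem_Icc] at ht
    show 2 * N + 1 - (2 * N + 1 - t) = t
    omega
  · intro t ht
    rw [mem_Icc] at ht
    show 2 * N + 1 - (2 * N + 1 - t) = t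
    omega
  · intro t ht
    rw [mem_Icc] at ht
    congr 1
    omega

theorem upper (hLL : LL_S) (hLL0 : LL0_S) (hC : CNT_S) (hP : PEEL_S) (hH : HEAVY_S) :
    UPPER_S := by
  classical
  intro N b ε hN hb hε
  have hN0 : (0 : ℝ) < N := by
    have : 0 < N := by omega
    exact_mod_cast this
  set η : ℝ := ε / (6 * N) with hη
  have hη0 : 0 < η := by positivity
  set δ0 : ℝ := ε / (2 * (3 * N + 2)) with hδ0
  have hδ00 : 0 < δ0 := by positivity
  have hex : ∀ k : ℕ, ∃ n0 : ℕ, 1 ≤ k → k ≤ N →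
      ∀ (V : Type) [Fintype V] [DecidableEq V] (G : Finset (Finset V)),
      n0 ≤ Fintype.card V → IsUniform 3 G →
      η ^ 2 * (Fintype.card V : ℝ) ^ 3 ≤ cnt3 (fun x x' y : V => sh (2 * N + 1 - k) G x y ∧
        sh (2 * N + 1 - k) G x' y ∧ sh k G x x') → HasExp N b G := by
    intro k
    by_cases hk : 1 ≤ k ∧ k ≤ N
    · obtain ⟨n0, h⟩ := hLL N b k (η ^ 2) hN hb hk.1 hk.2 (by positivity)
      exact ⟨n0, fun _ _ => h⟩
    · exact ⟨0, fun h1 h2 => absurd ⟨h1, h2⟩ hk⟩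
  choose nk hnk using hex
  obtain ⟨n1, hn1⟩ := hLL0 N b δ0 hN hδ00
  refine ⟨max n1 ((Icc 1 N).sup nk), ?_⟩
  intro V _ _ G hn hu hno
  have hn2 : (Icc 1 N).sup nk ≤ Fintype.card V := (le_max_right _ _).trans hn
  set n : ℝ := (Fintype.card V : ℝ) with hndef
  obtain ⟨p1, _, p3, _⟩ := hP V G hu
  have h1 := p3 (2 * N)
  rw [sum_pair] at h1
  have h2 : (2 : ℝ) * G.card ≤
      ∑ k ∈ Icc 1 N, ((cnt2 (fun x y : V => sh (2 * N + 1 - k) G x y) : ℝ) +
        cnt2 (fun x y : V => sh k G x y)) + 2 * (kcore (2 * N + 1) G).card := by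
    exact_mod_cast h1
  have h3 : ∀ k ∈ Icc 1 N, (cnt2 (fun x y : V => sh (2 * N + 1 - k) G x y) : ℝ) +
        cnt2 (fun x y : V => sh k G x y) ≤ (1 + 3 * η) * n ^ 2 := by
    intro k hk
    have hk' := mem_Icc.1 hk
    have h4 : (cnt3 (fun x x' y : V => sh (2 * N + 1 - k) G x y ∧
        sh (2 * N + 1 - k) G x' y ∧ sh k G x x') : ℝ) ≤ η ^ 2 * n ^ 3 := by
      by_contra hcon
      exact hno (hnk k hk'.1 hk'.2 V G ((Finset.le_sup hk).trans hn2) hu (not_le.1 hcon).le)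
    have h5 := hC V (fun x y : V => sh (2 * N + 1 - k) G x y) (fun x y : V => sh k G x y)
      η (η ^ 2) hη0 (by positivity) (fun x y h => by
        unfold sh at h ⊢
        rw [lk_comm]
        exact h) h4
    refine h5.trans (le_of_eq ?_)
    have : η ^ 2 / η = η := by field_simp
    rw [this]
    ring
  have h4 := sum_le_sum h3
  rw [sum_const, Nat.card_Icc, nsmul_eq_mul] at h4
  have h5 : (cnt2 (fun x y : V => sh (2 * N + 1) G x y) : ℝ) ≤ δ0 * n ^ 2 := by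
    by_contra hcon
    exact hno (hn1 V G ((le_max_left _ _).trans hn) hu (not_le.1 hcon).le)
  have h6 : (2 : ℝ) * (kcore (2 * N + 1) G).card ≤
      (3 * N + 2) * cnt2 (fun x y : V => sh (2 * N + 1) G x y) := by
    have := (hH V N b G hu hno (kcore (2 * N + 1) G) (p1 _).1).1
    exact_mod_cast this
  have h7 : (3 * N + 2) * (cnt2 (fun x y : V => sh (2 * N + 1) G x y) : ℝ) ≤ ε / 2 * n ^ 2 := by
    refine (mul_le_mul_of_nonneg_left h5 (by positivity)).trans (le_of_eq ?_)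
    rw [hδ0]
    field_simp
  have h8 : ((N + 1 - 1 : ℕ) : ℝ) * ((1 + 3 * η) * n ^ 2) = N * n ^ 2 + ε / 2 * n ^ 2 := by
    rw [Nat.add_sub_cancel, hη]
    field_simp
    ring
  rw [h8] at h4
  nlinarith [h2, h4, h6, h7]

end MP_182bbb_co.TT.H52
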